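import Pool.Agent.Q210.SK.Main

set_option autoImplicit false

open Cardinal Order Q210.SK

universe u

namespace Pool.Agent.Results.MP_f7d510_lc.StrongKurepaFromDiamondPlus

/-- For every infinite cardinal `λ`, in particular for every singular one: if diamond-plus holds at
`λ⁺` and there is a `λ⁺`-Aronszajn tree, then there is a strong `λ⁺`-Kurepa tree. -/
theorem result (lam : Cardinal.{u}) (hlam : ℵ₀ ≤ lam)
    (hD : DiamondPlus (succ lam))
    (hA : ∃ (A : Type u) (_ : PartialOrder A), IsAronszajn (succ lam) A) :
    ∃ (T : Type u) (_ : PartialOrder T), IsStrongKurepa (succ lam) T :=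
  exists_strongKurepa (Cardinal.isRegular_succ hlam) hD hA

end Pool.Agent.Results.MP_f7d510_lc.StrongKurepaFromDiamondPlus
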